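import Pool.Agent.H78.STN.Stmts3

/-!
# Board STO, row BGK (helper72): the length of the cycle is less than 2500000 (copy of BG4)
-/

set_option autoImplicit false

namespace Pool.STN

theorem bgk_e16 : (29 / 10 * 2965950 : ℝ) ≤ Real.exp 16 := by
  have h1 : Real.exp 16 = Real.exp 1 ^ 16 := by
    rw [← Real.exp_nat_mul]
    norm_num
  rw [h1]
  have h2 : (2.7182818 : ℝ) ≤ Real.exp 1 := by
    have := Real.exp_one_gt_d9
    linarith
  refine le_trans ?_ (pow_le_pow_left₀ (by norm_num) h2 16)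
  norm_num

theorem bgk_small (n : ℕ) (hn : 147 ≤ n) :
    378 * (17000 * ((n : ℝ) + 1)) * (343 / 400) ^ n ≤ 1 / 2 := by
  induction n, hn using Nat.le_induction with
  | base => norm_num
  | succ n hn ih =>
    refine le_trans ?_ ih
    have hnr : (147 : ℝ) ≤ n := by exact_mod_cast hn
    have hp : (0 : ℝ) < (343 / 400 : ℝ) ^ n := by positivity
    rw [pow_succ]
    push_cast
    have h1 : ((n : ℝ) + 1 + 1) * (343 / 400) ≤ (n : ℝ) + 1 := by linarith
    have h2 : 378 * (17000 * ((n : ℝ) + 1 + 1)) * ((343 / 400) ^ n * (343 / 400)) =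
        378 * 17000 * (343 / 400) ^ n * (((n : ℝ) + 1 + 1) * (343 / 400)) := by ring
    have h3 : 378 * (17000 * ((n : ℝ) + 1)) * (343 / 400) ^ n =
        378 * 17000 * (343 / 400) ^ n * ((n : ℝ) + 1) := by ring
    rw [h2, h3]
    exact mul_le_mul_of_nonneg_left h1 (by positivity)

theorem bgk_log : (2 / 5 : ℝ) * Real.log 2 ≤ 2 * Real.log 2 - Real.log 3 := by
  have e1 : Real.log (4 / 3) = 2 * Real.log 2 - Real.log 3 := by
    rw [Real.log_div (by norm_num) (by norm_num), show (4 : ℝ) = 2 ^ 2 by norm_num,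
      Real.log_pow]
    norm_num
  have e2 : Real.log ((2 : ℝ) ^ 2) ≤ Real.log ((4 / 3 : ℝ) ^ 5) :=
    Real.log_le_log (by norm_num) (by norm_num)
  rw [Real.log_pow, Real.log_pow, e1] at e2
  push_cast at e2
  linarith

theorem BGK_thm (hD : DIOStmt) : BGKStmt := by
  intro k U m0 hU hk hm0 hlog hE
  set n : ℕ := k / 17000 with hn
  have hn147 : 147 ≤ n := by omega
  have hkn : 17000 * n ≤ k := by omega
  have hkn2 : k ≤ 17000 * (n + 1) := by omega
  have hnr147 : (147 : ℝ) ≤ n := by exact_mod_cast hn147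
  have hknr : (17000 : ℝ) * n ≤ k := by exact_mod_cast hkn
  have hknr2 : (k : ℝ) ≤ 17000 * ((n : ℝ) + 1) := by exact_mod_cast hkn2
  have hk0 : (0 : ℝ) < k := by
    have : 0 < k := by omega
    exact_mod_cast this
  have hm0r : (2 : ℝ) ≤ m0 := by exact_mod_cast hm0
  have hUk : (U : ℝ) ≤ k := by exact_mod_cast hU
  have hU0 : (0 : ℝ) ≤ U := Nat.cast_nonneg _
  have hne : ((k : ℤ) - 2 * U) ≠ 0 ∨ ((k : ℤ) - U) ≠ 0 := by omega
  have h3 := hD ((k : ℤ) - 2 * U) ((k : ℤ) - U) n hne (by omega)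
  have hL : (((k : ℤ) - 2 * U : ℤ) : ℝ) * Real.log (4 / 3) +
      (((k : ℤ) - U : ℤ) : ℝ) * Real.log (9 / 8) =
      -(((k + U : ℕ) : ℝ) * Real.log 2 - (k : ℝ) * Real.log 3) := by
    have e1 : Real.log (4 / 3) = 2 * Real.log 2 - Real.log 3 := by
      rw [Real.log_div (by norm_num) (by norm_num), show (4 : ℝ) = 2 ^ 2 by norm_num,
        Real.log_pow]
      norm_num
    have e2 : Real.log (9 / 8) = 2 * Real.log 3 - 3 * Real.log 2 := by
      rw [Real.log_div (by norm_num) (by norm_num), show (9 : ℝ) = 3 ^ 2 by norm_num,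
        show (8 : ℝ) = 2 ^ 3 by norm_num, Real.log_pow, Real.log_pow]
      norm_num
    rw [e1, e2]
    push_cast
    ring
  rw [hL, abs_neg] at h3
  have hu : |(((k : ℤ) - 2 * U : ℤ) : ℝ)| ≤ k := by
    push_cast
    rw [abs_le]
    constructor <;> linarith
  have hv : |(((k : ℤ) - U : ℤ) : ℝ)| ≤ k := by
    push_cast
    rw [abs_le]
    constructor <;> linarith
  have hp0 : (0 : ℝ) ≤ (343 / 400 : ℝ) ^ n := by positivity
  have h5 : 14 * (18 * |(((k : ℤ) - 2 * U : ℤ) : ℝ)| + 9 * |(((k : ℤ) - U : ℤ) : ℝ)|) *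
      (343 / 400) ^ n ≤ 1 / 2 := by
    refine le_trans ?_ (bgk_small n hn147)
    refine mul_le_mul_of_nonneg_right ?_ hp0
    linarith
  have hmp : (0 : ℝ) < (m0 : ℝ) - 1 := by linarith
  have h6 : (1 : ℝ) / 2 ≤ 601 * 2965950 ^ n * (11 / ((m0 : ℝ) - 1)) := by
    have h7 : 601 * 2965950 ^ n * |((k + U : ℕ) : ℝ) * Real.log 2 - (k : ℝ) * Real.log 3| ≤
        601 * 2965950 ^ n * (11 / ((m0 : ℝ) - 1)) :=
      mul_le_mul_of_nonneg_left hE (by positivity)
    linarith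
  have h7 : (m0 : ℝ) - 1 ≤ 13222 * 2965950 ^ n := by
    have h8 : 601 * 2965950 ^ n * (11 / ((m0 : ℝ) - 1)) =
        6611 * 2965950 ^ n / ((m0 : ℝ) - 1) := by
      ring
    rw [h8, le_div_iff₀ hmp] at h6
    linarith
  have hE11 : (11 : ℝ) / ((m0 : ℝ) - 1) ≤ 11 := by
    rw [div_le_iff₀ hmp]
    linarith
  have hcast : ((k - U : ℕ) : ℝ) = (k : ℝ) - U := by
    rw [Nat.cast_sub hU]
  have hl2 : (0.6931 : ℝ) ≤ Real.log 2 := by
    have := Real.log_two_gt_d9
    linarith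
  have h8 : (16 : ℝ) * n ≤ Real.log m0 := by
    have a1 : ((k + U : ℕ) : ℝ) * Real.log 2 - (k : ℝ) * Real.log 3 ≤ 11 :=
      (le_abs_self _).trans (hE.trans hE11)
    rw [hcast] at hlog
    push_cast at a1
    have a2 : (k : ℝ) * (2 * Real.log 2 - Real.log 3) ≤ 292 * Real.log m0 + 11 := by
      have e : (k : ℝ) * (2 * Real.log 2 - Real.log 3) = ((k : ℝ) - U) * Real.log 2 +
          (((k : ℝ) + U) * Real.log 2 - (k : ℝ) * Real.log 3) := by ring
      rw [e]
      linarith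
    have a3 : (k : ℝ) * ((2 / 5 : ℝ) * Real.log 2) ≤ (k : ℝ) * (2 * Real.log 2 - Real.log 3) :=
      mul_le_mul_of_nonneg_left bgk_log hk0.le
    have a4 : (k : ℝ) * ((2 / 5 : ℝ) * 0.6931) ≤ (k : ℝ) * ((2 / 5 : ℝ) * Real.log 2) :=
      mul_le_mul_of_nonneg_left (by linarith) hk0.le
    linarith
  have h9 : Real.exp (16 * n) ≤ m0 := by
    rw [← Real.le_log_iff_exp_le (by linarith)]
    exact h8
  have h10 : (29 / 10 * 2965950 : ℝ) ^ n ≤ Real.exp (16 * n) := by
    have e : Real.exp (16 * n) = Real.exp 16 ^ n := by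
      rw [← Real.exp_nat_mul]
      congr 1
      ring
    rw [e]
    exact pow_le_pow_left₀ (by norm_num) bgk_e16 n
  rw [mul_pow] at h10
  have h11 : (13230 : ℝ) ≤ (29 / 10) ^ n :=
    le_trans (by norm_num : (13230 : ℝ) ≤ (29 / 10) ^ 10)
      (pow_le_pow_right₀ (by norm_num : (1 : ℝ) ≤ 29 / 10) (by omega))
  have h12 : (1 : ℝ) ≤ 2965950 ^ n := one_le_pow₀ (by norm_num)
  have h13 : (13230 : ℝ) * 2965950 ^ n ≤ (29 / 10) ^ n * 2965950 ^ n :=
    mul_le_mul_of_nonneg_right h11 (by positivity)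
  linarith

end Pool.STN
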