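import Pool.Agent.H78.STN.Stmts

/-! Board stn, row DIO (helper72): the linear form is not small. -/

set_option autoImplicit false

open Polynomial

namespace Pool.STN

theorem dio_first (n i : ℕ) (L c : ℝ) (hi : i ≤ 2) (hn : 1 ≤ n) (_hL0 : 0 ≤ L)
    (hL : L * 2 ^ (3 * n + 2) ≤ 7 ^ (3 * n + 2)) (hc : |c| * 7 ^ (3 * n - i) ≤ 7909200 ^ n) :
    (3 ^ n * L) * |c| ≤ 601 * 2965950 ^ n := by
  have h7 : (7 : ℝ) ^ (3 * n) = 7 ^ (3 * n - i) * 7 ^ i := by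
    rw [← pow_add]
    congr 1
    omega
  have h7i : (7 : ℝ) ^ i ≤ 49 := by
    have : (7 : ℝ) ^ i ≤ 7 ^ 2 := pow_le_pow_right₀ (by norm_num) hi
    linarith
  have hc2 : |c| * 7 ^ (3 * n) ≤ 7909200 ^ n * 49 := by
    rw [h7, ← mul_assoc]
    exact mul_le_mul hc h7i (by positivity) (by positivity)
  have hA : (0 : ℝ) < 2 ^ (3 * n + 2) * 7 ^ (3 * n) := by positivity
  have h8 : (2965950 : ℝ) ^ n * 2 ^ (3 * n) = 3 ^ n * 7909200 ^ n := by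
    rw [pow_mul, ← mul_pow, ← mul_pow]
    norm_num
  have key : (3 ^ n * L) * |c| * (2 ^ (3 * n + 2) * 7 ^ (3 * n)) ≤
      601 * 2965950 ^ n * (2 ^ (3 * n + 2) * 7 ^ (3 * n)) := by
    have e1 : (3 ^ n * L) * |c| * (2 ^ (3 * n + 2) * 7 ^ (3 * n)) =
        3 ^ n * ((L * 2 ^ (3 * n + 2)) * (|c| * 7 ^ (3 * n))) := by ring
    have e2 : (601 : ℝ) * 2965950 ^ n * (2 ^ (3 * n + 2) * 7 ^ (3 * n)) =
        2404 * (3 ^ n * 7909200 ^ n) * 7 ^ (3 * n) := by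
      rw [← h8, pow_add]
      ring
    have e3 : (L * 2 ^ (3 * n + 2)) * (|c| * 7 ^ (3 * n)) ≤ 7 ^ (3 * n + 2) * (7909200 ^ n * 49) :=
      mul_le_mul hL hc2 (by positivity) (by positivity)
    have e4 : (3 : ℝ) ^ n * ((L * 2 ^ (3 * n + 2)) * (|c| * 7 ^ (3 * n))) ≤
        3 ^ n * (7 ^ (3 * n + 2) * (7909200 ^ n * 49)) :=
      mul_le_mul_of_nonneg_left e3 (by positivity)
    have e5 : (3 : ℝ) ^ n * (7 ^ (3 * n + 2) * (7909200 ^ n * 49)) =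
        2401 * (3 ^ n * 7909200 ^ n) * 7 ^ (3 * n) := by
      rw [pow_add]
      ring
    have e6 : (2401 : ℝ) * (3 ^ n * 7909200 ^ n) * 7 ^ (3 * n) ≤
        2404 * (3 ^ n * 7909200 ^ n) * 7 ^ (3 * n) := by
      have : (0 : ℝ) ≤ (3 ^ n * 7909200 ^ n) * 7 ^ (3 * n) := by positivity
      nlinarith
    rw [e1, e2]
    linarith
  exact le_of_mul_le_mul_right key hA

theorem dio_second (n : ℕ) (L : ℝ) (hL : L * 2 ^ (3 * n + 2) ≤ 7 ^ (3 * n + 2)) :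
    (3 ^ n * L) * (1 / 150) ^ n ≤ 14 * (343 / 400) ^ n := by
  have hA : (0 : ℝ) < 2 ^ (3 * n + 2) := by positivity
  have key : (3 ^ n * L) * (1 / 150) ^ n * 2 ^ (3 * n + 2) ≤
      14 * (343 / 400) ^ n * 2 ^ (3 * n + 2) := by
    have e1 : (3 ^ n * L) * (1 / 150 : ℝ) ^ n * 2 ^ (3 * n + 2) =
        (3 ^ n * (1 / 150) ^ n) * (L * 2 ^ (3 * n + 2)) := by ring
    have e2 : (3 ^ n * (1 / 150 : ℝ) ^ n) * (L * 2 ^ (3 * n + 2)) ≤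
        (3 ^ n * (1 / 150) ^ n) * 7 ^ (3 * n + 2) :=
      mul_le_mul_of_nonneg_left hL (by positivity)
    have e3 : (3 ^ n * (1 / 150 : ℝ) ^ n) * 7 ^ (3 * n + 2) = 49 * (343 / 50) ^ n := by
      rw [pow_add, pow_mul, ← mul_pow]
      have : (3 * (1 / 150) : ℝ) ^ n * ((7 ^ 3) ^ n * 7 ^ 2) = 49 * ((3 * (1 / 150)) * 7 ^ 3) ^ n := by
        rw [mul_pow (3 * (1 / 150) : ℝ)]
        ring
      rw [this]
      norm_num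
    have e4 : (14 : ℝ) * (343 / 400) ^ n * 2 ^ (3 * n + 2) = 56 * (343 / 50) ^ n := by
      rw [pow_add, pow_mul]
      have : (14 : ℝ) * (343 / 400) ^ n * ((2 ^ 3) ^ n * 2 ^ 2) = 56 * ((343 / 400) * 2 ^ 3) ^ n := by
        rw [mul_pow (343 / 400 : ℝ)]
        ring
      rw [this]
      norm_num
    have e5 : (49 : ℝ) * (343 / 50) ^ n ≤ 56 * (343 / 50) ^ n := by
      have : (0 : ℝ) ≤ (343 / 50 : ℝ) ^ n := by positivity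
      nlinarith
    rw [e1, e4]
    linarith
  exact le_of_mul_le_mul_right key hA

theorem DIO_thm (hDIV : DIVStmt) (hIVL : IVLStmt) (hJBD : JBDStmt) (hCBD : CBDStmt)
    (hNZR : NZRStmt) (hLCB : LCBStmt) : DIOStmt := by
  intro u v n huv hn
  obtain ⟨i, hi, hne⟩ := hNZR n u v hn huv
  obtain ⟨z, hz⟩ := hDIV n i u v hn hi
  have hI := hIVL n i u v hn hi
  obtain ⟨hJ1, hJ2⟩ := hJBD n i hi
  have hC := hCBD n (3 * n - i)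
  have hL := hLCB (3 * n + 2)
  obtain ⟨N, hN⟩ : ∃ N : ℚ, N = Nn u v (Pq ^ n) (-3 * n - 1 + i) := ⟨_, rfl⟩
  obtain ⟨c, hc⟩ : ∃ c : ℤ, c = (Pz ^ n).coeff (3 * n - i) := ⟨_, rfl⟩
  obtain ⟨I1, hI1⟩ : ∃ I1 : ℝ, I1 = ∫ x in (6 : ℝ)..8, gg n i x := ⟨_, rfl⟩
  obtain ⟨I2, hI2⟩ : ∃ I2 : ℝ, I2 = ∫ x in (8 : ℝ)..9, gg n i x := ⟨_, rfl⟩
  obtain ⟨l, hl⟩ : ∃ l : ℕ, l = Nat.lcmUpto (3 * n + 2) := ⟨_, rfl⟩
  obtain ⟨Λ, hΛ⟩ : ∃ Λ : ℝ, Λ = (u : ℝ) * Real.log (4 / 3) + (v : ℝ) * Real.log (9 / 8) := ⟨_, rfl⟩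
  rw [← hN] at hne hz hI
  rw [← hc] at hI hC
  rw [← hI1, ← hI2, ← hΛ] at hI
  rw [← hI1] at hJ1
  rw [← hI2] at hJ2
  rw [← hl] at hz hL
  rw [← hΛ]
  have hl0 : l ≠ 0 := by
    rw [hl]
    exact (Nat.lcmUpto_pos _).ne'
  have hz0 : z ≠ 0 := by
    intro h
    rw [h] at hz
    have h3 : ((3 ^ n * l : ℕ) : ℚ) ≠ 0 := by
      have : 3 ^ n * l ≠ 0 := by positivity
      exact_mod_cast this
    have hz' : ((3 ^ n * l : ℕ) : ℚ) * N = 0 := by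
      rw [hz]
      norm_num
    rcases mul_eq_zero.1 hz' with h4 | h4
    · exact h3 h4
    · exact hne h4
  have hzR : ((3 : ℝ) ^ n * (l : ℝ)) * (N : ℝ) = (z : ℝ) := by
    have := congrArg (fun q : ℚ => (q : ℝ)) hz
    push_cast at this
    exact this
  have hz1 : (1 : ℝ) ≤ |(z : ℝ)| := by
    have : (1 : ℤ) ≤ |z| := Int.one_le_abs hz0
    exact_mod_cast this
  have hLR : (l : ℝ) * 2 ^ (3 * n + 2) ≤ 7 ^ (3 * n + 2) := by exact_mod_cast hL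
  have hCR : |(c : ℝ)| * 7 ^ (3 * n - i) ≤ 7909200 ^ n := by exact_mod_cast hC
  have hl0R : (0 : ℝ) ≤ (l : ℝ) := Nat.cast_nonneg _
  have hA := dio_first n i (l : ℝ) (c : ℝ) hi hn hl0R hLR hCR
  have hB := dio_second n (l : ℝ) hLR
  have hD0 : (0 : ℝ) ≤ (3 : ℝ) ^ n * (l : ℝ) := by positivity
  have hNe : (N : ℝ) = (u : ℝ) * I1 + (v : ℝ) * I2 - (c : ℝ) * Λ := by linarith
  have hNb : |(N : ℝ)| ≤ |(u : ℝ)| * (18 * (1 / 150) ^ n) + |(v : ℝ)| * (9 * (1 / 150) ^ n) +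
      |(c : ℝ)| * |Λ| := by
    rw [hNe]
    have t1 : |(u : ℝ) * I1 + (v : ℝ) * I2 - (c : ℝ) * Λ| ≤
        |(u : ℝ) * I1| + |(v : ℝ) * I2| + |(c : ℝ) * Λ| := by
      refine (abs_sub _ _).trans ?_
      have := abs_add_le ((u : ℝ) * I1) ((v : ℝ) * I2)
      linarith
    rw [abs_mul, abs_mul, abs_mul] at t1
    have t2 : |(u : ℝ)| * |I1| ≤ |(u : ℝ)| * (18 * (1 / 150) ^ n) :=
      mul_le_mul_of_nonneg_left hJ1 (abs_nonneg _)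
    have t3 : |(v : ℝ)| * |I2| ≤ |(v : ℝ)| * (9 * (1 / 150) ^ n) :=
      mul_le_mul_of_nonneg_left hJ2 (abs_nonneg _)
    linarith
  have hfin : |(z : ℝ)| ≤ ((3 : ℝ) ^ n * (l : ℝ)) * (|(u : ℝ)| * (18 * (1 / 150) ^ n) +
      |(v : ℝ)| * (9 * (1 / 150) ^ n) + |(c : ℝ)| * |Λ|) := by
    rw [← hzR, abs_mul, abs_of_nonneg hD0]
    exact mul_le_mul_of_nonneg_left hNb hD0
  have e1 : ((3 : ℝ) ^ n * (l : ℝ)) * (|(u : ℝ)| * (18 * (1 / 150) ^ n) +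
      |(v : ℝ)| * (9 * (1 / 150) ^ n) + |(c : ℝ)| * |Λ|) =
      (18 * |(u : ℝ)| + 9 * |(v : ℝ)|) * (((3 : ℝ) ^ n * (l : ℝ)) * (1 / 150) ^ n) +
      (((3 : ℝ) ^ n * (l : ℝ)) * |(c : ℝ)|) * |Λ| := by ring
  have e2 : (18 * |(u : ℝ)| + 9 * |(v : ℝ)|) * (((3 : ℝ) ^ n * (l : ℝ)) * (1 / 150) ^ n) ≤
      (18 * |(u : ℝ)| + 9 * |(v : ℝ)|) * (14 * (343 / 400) ^ n) :=
    mul_le_mul_of_nonneg_left hB (by positivity)
  have e3 : (((3 : ℝ) ^ n * (l : ℝ)) * |(c : ℝ)|) * |Λ| ≤ (601 * 2965950 ^ n) * |Λ| :=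
    mul_le_mul_of_nonneg_right hA (abs_nonneg _)
  rw [e1] at hfin
  have e4 : (18 * |(u : ℝ)| + 9 * |(v : ℝ)|) * (14 * (343 / 400) ^ n) =
      14 * (18 * |(u : ℝ)| + 9 * |(v : ℝ)|) * (343 / 400) ^ n := by ring
  rw [e4] at e2
  linarith

end Pool.STN
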