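import Pool.Agent.H78.STN.Stmts2

/-! Board sto, row EN6 (helper72): computation for the starting values from 60000 to 70001. -/

set_option autoImplicit false

namespace Pool.STN

/-- a block of starting values -/
def en6_blk : ℕ → ℕ → Bool
  | 0, _ => true
  | n + 1, s => (Nat.beq (s % 3) 0 || sim 70 s s 3) && en6_blk n (s + 2)

theorem en6_spec : ∀ n s j : ℕ, en6_blk n s = true → j < n → (s + 2 * j) % 3 ≠ 0 →
    sim 70 (s + 2 * j) (s + 2 * j) 3 = true := by
  intro n
  induction n with
  | zero =>
    intro s j _ hj
    omega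
  | succ n ih =>
    intro s j h hj h3
    simp only [en6_blk, Bool.and_eq_true, Bool.or_eq_true] at h
    obtain ⟨h1, h2⟩ := h
    rcases j with _ | j
    · rcases h1 with h1 | h1
      · exact absurd (Nat.eq_of_beq_eq_true h1) (by simpa using h3)
      · simpa using h1
    · have e : s + 2 * (j + 1) = s + 2 + 2 * j := by ring
      rw [e] at h3 ⊢
      exact ih (s + 2) j h2 (by omega) h3

theorem en6_b0 : en6_blk 500 60000 = true := by decide +kernel

theorem en6_b1 : en6_blk 500 61000 = true := by decide +kernel

theorem en6_b2 : en6_blk 500 62000 = true := by decide +kernel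

theorem en6_b3 : en6_blk 500 63000 = true := by decide +kernel

theorem en6_b4 : en6_blk 500 64000 = true := by decide +kernel

theorem en6_b5 : en6_blk 500 65000 = true := by decide +kernel

theorem en6_b6 : en6_blk 500 66000 = true := by decide +kernel

theorem en6_b7 : en6_blk 500 67000 = true := by decide +kernel

theorem en6_b8 : en6_blk 500 68000 = true := by decide +kernel

theorem en6_b9 : en6_blk 500 69000 = true := by decide +kernel

theorem en6_b10 : en6_blk 1 70000 = true := by decide +kernel

theorem en6_use (n s m0 : ℕ) (hb : en6_blk n s = true) (hs : s % 2 = 0) (h0 : m0 % 2 = 0)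
    (h1 : s ≤ m0) (h2 : m0 < s + 2 * n) (h3 : m0 % 3 ≠ 0) : sim 70 m0 m0 3 = true := by
  obtain ⟨j, hj⟩ : ∃ j, m0 = s + 2 * j := ⟨(m0 - s) / 2, by omega⟩
  have hjn : j < n := by omega
  have := en6_spec n s j hb hjn (by rw [← hj]; exact h3)
  rwa [← hj] at this

theorem EN6_thm : ENStmt 6 := by
  intro m0 h1 h2 he h3 _ _ _ _ _
  by_cases c0 : m0 < 61000
  · exact en6_use 500 60000 m0 en6_b0 (by norm_num) he (by omega) (by omega) h3
  by_cases c1 : m0 < 62000
  · exact en6_use 500 61000 m0 en6_b1 (by norm_num) he (by omega) (by omega) h3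
  by_cases c2 : m0 < 63000
  · exact en6_use 500 62000 m0 en6_b2 (by norm_num) he (by omega) (by omega) h3
  by_cases c3 : m0 < 64000
  · exact en6_use 500 63000 m0 en6_b3 (by norm_num) he (by omega) (by omega) h3
  by_cases c4 : m0 < 65000
  · exact en6_use 500 64000 m0 en6_b4 (by norm_num) he (by omega) (by omega) h3
  by_cases c5 : m0 < 66000
  · exact en6_use 500 65000 m0 en6_b5 (by norm_num) he (by omega) (by omega) h3
  by_cases c6 : m0 < 67000
  · exact en6_use 500 66000 m0 en6_b6 (by norm_num) he (by omega) (by omega) h3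
  by_cases c7 : m0 < 68000
  · exact en6_use 500 67000 m0 en6_b7 (by norm_num) he (by omega) (by omega) h3
  by_cases c8 : m0 < 69000
  · exact en6_use 500 68000 m0 en6_b8 (by norm_num) he (by omega) (by omega) h3
  by_cases c9 : m0 < 70000
  · exact en6_use 500 69000 m0 en6_b9 (by norm_num) he (by omega) (by omega) h3
  exact en6_use 1 70000 m0 en6_b10 (by norm_num) he (by omega) (by omega) h3

end Pool.STN
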